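import Mathlib

/-!
# Complete graphs with monochromatic cliques of every colour at every vertex

For three colours and every `k ≥ 3` there is a `3`-coloured `k`-enabling colouring of the complete
graph on `3 (2 k - 3) = 6 k - 9` vertices, so `n_3(k) ≤ 6 k - 9 < 6 (k - 1)`.

Construction: the vertices are the pairs `(t, i)` with `t ∈ ℤ/(2k-3)` and `i ∈ {0,1,2}`.  Fix a
regular tournament on `ℤ/(2k-3)`.  The edge between `(t, i)` and `(s, j)` has colour `j` if `t ≠ s`
and `t → s`, and the edge between `(t, i)` and `(t, l)` has the third colour.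
-/

namespace Pool.Agent.Results.MP_7ae2b6_co.ThreeColours

open Finset

/-- A monochromatic clique of colour `i`; `c x y` is the colour of the edge `xy`. -/
def MonoClique {V : Type*} {r : ℕ} (c : V → V → Fin r) (i : Fin r) (S : Finset V) : Prop :=
  ∀ x ∈ S, ∀ y ∈ S, x ≠ y → c x y = i

/-- `c` is an `r`-coloured `k`-enabling colouring of the complete graph on `V`. -/
def Enabling {V : Type*} {r : ℕ} (k : ℕ) (c : V → V → Fin r) : Prop :=
  (∀ x y, c x y = c y x) ∧
    ∀ (v : V) (i : Fin r), ∃ S : Finset V, S.card = k ∧ v ∈ S ∧ MonoClique c i S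

/-- `n_r(k)`. -/
noncomputable def minOrder (r k : ℕ) : ℕ :=
  sInf {n : ℕ | 1 ≤ n ∧ ∃ c : Fin n → Fin n → Fin r, Enabling k c}

theorem Enabling.transfer {V W : Type*} {r k : ℕ} (e : V ≃ W) {c : V → V → Fin r}
    (h : Enabling k c) : Enabling k (fun x y => c (e.symm x) (e.symm y)) := by
  refine ⟨fun x y => h.1 _ _, fun v i => ?_⟩
  obtain ⟨S, h1, h2, h3⟩ := h.2 (e.symm v) i
  refine ⟨S.map e.toEmbedding, by simpa using h1, ?_, ?_⟩
  · rw [mem_map]
    exact ⟨e.symm v, h2, by simp⟩
  · intro x hx y hy hxy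
    rw [mem_map] at hx hy
    obtain ⟨x', hx', rfl⟩ := hx
    obtain ⟨y', hy', rfl⟩ := hy
    have : x' ≠ y' := fun e => hxy (by rw [e])
    simpa using h3 x' hx' y' hy' this

theorem minOrder_le {V : Type*} [Fintype V] [Nonempty V] {r k : ℕ} {c : V → V → Fin r}
    (h : Enabling k c) : minOrder r k ≤ Fintype.card V :=
  Nat.sInf_le ⟨Fintype.card_pos, _, h.transfer (Fintype.equivFin V)⟩

variable {d : ℕ}

/-- The cyclic tournament on `ℤ/(2d+1)`. -/
def Dom (t s : ZMod (2 * d + 1)) : Prop := 1 ≤ (s - t).val ∧ (s - t).val ≤ d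

instance (t s : ZMod (2 * d + 1)) : Decidable (Dom t s) := by unfold Dom; infer_instance

theorem dom_swap {t s : ZMod (2 * d + 1)} (h : t ≠ s) : Dom s t ↔ ¬ Dom t s := by
  have h0 : s - t ≠ 0 := sub_ne_zero.2 h.symm
  have e : t - s = -(s - t) := by ring
  unfold Dom
  rw [e, ZMod.neg_val, if_neg h0]
  have h1 : (s - t).val ≠ 0 := by rwa [Ne, ZMod.val_eq_zero]
  have h2 := ZMod.val_lt (s - t)
  omega

/-- The colouring. -/
def col (p q : ZMod (2 * d + 1) × Fin 3) : Fin 3 :=
  if p.1 = q.1 then -(p.2 + q.2) else if Dom p.1 q.1 then q.2 else p.2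

theorem col_symm (p q : ZMod (2 * d + 1) × Fin 3) : col p q = col q p := by
  unfold col
  by_cases h : p.1 = q.1
  · rw [if_pos h, if_pos h.symm, add_comm]
  · have h' : ¬ q.1 = p.1 := fun e => h e.symm
    rw [if_neg h, if_neg h']
    by_cases h1 : Dom p.1 q.1
    · have h2 : ¬ Dom q.1 p.1 := by
        rw [dom_swap h]
        exact fun h2 => h2 h1
      rw [if_pos h1, if_neg h2]
    · have h2 : Dom q.1 p.1 := by
        rw [dom_swap h]
        exact h1
      rw [if_neg h1, if_pos h2]

theorem enabling (hd : 1 ≤ d) : Enabling (d + 2) (col (d := d)) := by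
  classical
  refine ⟨col_symm, ?_⟩
  rintro ⟨t, i⟩ j
  by_cases hij : j = i
  · subst hij
    -- the clique `X_j`
    let X : Finset (ZMod (2 * d + 1) × Fin 3) := univ.image (fun s => (s, j))
    have hX : X.card = 2 * d + 1 := by
      rw [card_image_of_injective _ (fun a b hab => (Prod.mk.inj hab).1), card_univ, ZMod.card]
    obtain ⟨S, h1, h2, h3⟩ := exists_subsuperset_card_eq (s := {(t, j)}) (t := X) (n := d + 2)
      (by
        rw [singleton_subset_iff]
        exact mem_image_of_mem _ (mem_univ t)) (by simp) (by omega)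
    refine ⟨S, h3, h1 (mem_singleton_self _), ?_⟩
    intro x hx y hy hxy
    obtain ⟨s, -, rfl⟩ := mem_image.1 (h2 hx)
    obtain ⟨s', -, rfl⟩ := mem_image.1 (h2 hy)
    have hne : s ≠ s' := fun e => hxy (by rw [e])
    simp only [col, if_neg hne, ite_self]
  · -- the third colour
    obtain ⟨l, hl⟩ : ∃ l : Fin 3, l = -(i + j) := ⟨_, rfl⟩
    have hil : i ≠ l := by subst hl; revert i j; decide
    have hjl : j ≠ l := by subst hl; revert i j; decide
    have hc : -(i + l) = j := by subst hl; revert i j; decide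
    have hc' : -(l + i) = j := by rw [add_comm]; exact hc
    let f : Fin d → ZMod (2 * d + 1) × Fin 3 := fun a => (t + ((a : ℕ) + 1 : ℕ), j)
    have hval : ∀ a : Fin d, ((((a : ℕ) + 1 : ℕ)) : ZMod (2 * d + 1)).val = (a : ℕ) + 1 := by
      intro a
      rw [ZMod.val_natCast_of_lt]
      have := a.2
      omega
    have hf : Function.Injective f := by
      intro a b hab
      have h1 : (((a : ℕ) + 1 : ℕ) : ZMod (2 * d + 1)) = (((b : ℕ) + 1 : ℕ) : ZMod (2 * d + 1)) :=
        add_left_cancel (Prod.mk.inj hab).1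
      have h2 := congrArg ZMod.val h1
      rw [hval, hval] at h2
      exact Fin.ext (by omega)
    have hdom : ∀ a : Fin d, Dom t (f a).1 := by
      intro a
      show 1 ≤ (t + ((a : ℕ) + 1 : ℕ) - t).val ∧ (t + ((a : ℕ) + 1 : ℕ) - t).val ≤ d
      rw [add_sub_cancel_left, hval]
      have := a.2
      omega
    have hne : ∀ a : Fin d, t ≠ (f a).1 := by
      intro a e
      have h := hdom a
      rw [← e] at h
      unfold Dom at h
      rw [sub_self, ZMod.val_zero] at h
      omega
    have key1 : ∀ (u : Fin 3) (a : Fin d), col (t, u) (f a) = j := by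
      intro u a
      simp only [col, if_neg (hne a), if_pos (hdom a)]
      rfl
    have key2 : ∀ a b : Fin d, f a ≠ f b → col (f a) (f b) = j := by
      intro a b hab
      have : (f a).1 ≠ (f b).1 := fun e => hab (Prod.ext e rfl)
      simp only [col, if_neg this]
      show (if _ then j else j) = j
      rw [ite_self]
    have hm1 : (t, l) ∉ univ.image f := by
      intro h
      obtain ⟨a, -, ha⟩ := mem_image.1 h
      exact hne a (congrArg Prod.fst ha).symm
    have hm2 : (t, i) ∉ insert (t, l) (univ.image f) := by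
      intro h
      rcases mem_insert.1 h with h | h
      · exact hil (congrArg Prod.snd h)
      · obtain ⟨a, -, ha⟩ := mem_image.1 h
        exact hne a (congrArg Prod.fst ha).symm
    refine ⟨insert (t, i) (insert (t, l) (univ.image f)), ?_, mem_insert_self _ _, ?_⟩
    · rw [card_insert_of_notMem hm2, card_insert_of_notMem hm1, card_image_of_injective _ hf,
        card_univ, Fintype.card_fin]
    · intro x hx y hy hxy
      rcases mem_insert.1 hx with rfl | hx
      · rcases mem_insert.1 hy with rfl | hy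
        · exact absurd rfl hxy
        · rcases mem_insert.1 hy with rfl | hy
          · simp only [col, if_true]
            exact hc
          · obtain ⟨a, -, rfl⟩ := mem_image.1 hy
            exact key1 _ _
      · rcases mem_insert.1 hx with rfl | hx
        · rcases mem_insert.1 hy with rfl | hy
          · simp only [col, if_true]
            exact hc'
          · rcases mem_insert.1 hy with rfl | hy
            · exact absurd rfl hxy
            · obtain ⟨a, -, rfl⟩ := mem_image.1 hy
              exact key1 _ _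
        · obtain ⟨a, -, rfl⟩ := mem_image.1 hx
          rcases mem_insert.1 hy with rfl | hy
          · rw [col_symm]
            exact key1 _ _
          · rcases mem_insert.1 hy with rfl | hy
            · rw [col_symm]
              exact key1 _ _
            · obtain ⟨b, -, rfl⟩ := mem_image.1 hy
              exact key2 _ _ hxy

theorem minOrder_three {k : ℕ} (hk : 3 ≤ k) : minOrder 3 k ≤ 6 * k - 9 := by
  obtain ⟨d, rfl⟩ : ∃ d, k = d + 2 := ⟨k - 2, by omega⟩
  have h := minOrder_le (enabling (d := d) (by omega))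
  rw [Fintype.card_prod, ZMod.card, Fintype.card_fin] at h
  omega

/-- For three colours `n_3(k) ≤ 6 k - 9 < 6 (k - 1)` for all `k ≥ 3`; so the statement of the
question fails for `r = 3`. -/
theorem result :
    (∀ k : ℕ, 3 ≤ k → minOrder 3 k ≤ 6 * k - 9 ∧ minOrder 3 k < 2 * 3 * (k - 1)) ∧
    ¬ (∀ r : ℕ, 2 ≤ r → ∃ k₀ : ℕ, r ≤ k₀ ∧ ∀ k : ℕ, k₀ ≤ k → minOrder r k = 2 * r * (k - 1)) := by
  have h1 : ∀ k : ℕ, 3 ≤ k → minOrder 3 k ≤ 6 * k - 9 ∧ minOrder 3 k < 2 * 3 * (k - 1) := by
    intro k hk
    have := minOrder_three hk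
    exact ⟨this, by omega⟩
  refine ⟨h1, ?_⟩
  intro h
  obtain ⟨k₀, h2, h3⟩ := h 3 (by norm_num)
  have h4 := h3 k₀ le_rfl
  have h5 := (h1 k₀ h2).2
  omega

end Pool.Agent.Results.MP_7ae2b6_co.ThreeColours
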